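import Pool.Agent.Lib_helper7.TC.Defs

/-!
# Block TC15: a nonzero algebraic integer divides a positive integer
-/

set_option autoImplicit false

namespace Pool.Agent.TC

/-- TC15: a nonzero algebraic integer divides a positive integer. -/
theorem tc15_pr {E : Type*} [Field E] [Algebra ℚ E] [Algebra.IsAlgebraic ℚ E]
    (α : NumberField.RingOfIntegers E) (hα : α ≠ 0) :
    ∃ m : ℕ, m ≠ 0 ∧ α ∣ (m : NumberField.RingOfIntegers E) := by
  have hint : IsIntegral ℤ α := Algebra.IsIntegral.isIntegral α
  have halg : IsAlgebraic ℤ α := hint.isAlgebraic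
  obtain ⟨r, hr, hd⟩ := halg.exists_nonzero_dvd (mem_nonZeroDivisors_of_ne_zero hα)
  refine ⟨r.natAbs, by simpa using hr, ?_⟩
  have h2 : ((r.natAbs : ℕ) : NumberField.RingOfIntegers E) =
      ((r.natAbs : ℤ) : NumberField.RingOfIntegers E) := (Int.cast_natCast _).symm
  rw [h2]
  rcases Int.natAbs_eq r with h | h
  · rw [← h]; simpa using hd
  · have : ((r.natAbs : ℤ)) = -r := by omega
    rw [this, Int.cast_neg, dvd_neg]; simpa using hd

end Pool.Agent.TC
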